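import Pool.Agent.Lib_MP_3538b5_al.NoCore

set_option autoImplicit false

namespace Pool.Agent.Results.MP_3538b5_al.FreeProPNotLinear

universe u v w

/-- Let `p` be a prime, `F` a non-abelian free pro-`p` group (basis `e : S → F` with at least two elements,
finite or infinite, converging to `1`), and `n` a natural number. There is `w ≠ 1` in `F` which is mapped to
`1` by every continuous homomorphism of `F` to `GL_n(R)`, for every commutative profinite ring `R`. So `F` is
not representable by matrices over a commutative profinite ring, and every linear pro-`p` group of dimension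
`n` satisfies the non-trivial pro-`p` identity `w`. -/
theorem result {p : ℕ} [Fact p.Prime] {F : Type u} [Group F] [TopologicalSpace F]
    [IsTopologicalGroup F] [CompactSpace F] [T2Space F] [TotallyDisconnectedSpace F] {S : Type v}
    {e : S → F} (hF : MP35.IsFreeProP p e) (hS : Nontrivial S) (n : ℕ) :
    ∃ w : F, w ≠ 1 ∧ ∀ (R : Type w) [CommRing R] [TopologicalSpace R]
      [IsTopologicalRing R] [CompactSpace R] [T2Space R] [TotallyDisconnectedSpace R]
      (ρ : F →* GL (Fin n) R), Continuous (fun g => (ρ g : Matrix (Fin n) (Fin n) R)) → ρ w = 1 :=
  MP35.exists_identity_all hF hS n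

end Pool.Agent.Results.MP_3538b5_al.FreeProPNotLinear
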